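import Pool.Agent.PFS.StmtsH

set_option autoImplicit false

open Matrix Filter Topology

namespace Pool.Agent.PFS.H95

theorem cov (cmf : CmfStmt) (cmc : CmcStmt) : CovStmt := by
  intro n C Γ h o ho
  obtain ⟨c1, c2, c3, c4, c5, c6, c7, c8⟩ := cmf n C Γ h
  obtain ⟨K, hK, hKC, hcov⟩ := h.cocompact
  have key : ∃ M : ℝ, 1 ≤ M ∧ ∀ k ∈ K, Cmp C M k o := by
    by_contra hcon
    push Not at hcon
    have hcon' : ∀ m : ℕ, ∃ k ∈ K, ¬ Cmp C ((m : ℝ) + 1) k o := fun m =>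
      hcon ((m : ℝ) + 1) (by have := Nat.cast_nonneg (α := ℝ) m; linarith)
    choose k hk hnk using hcon'
    obtain ⟨a, ha, φ, hφ, hlim⟩ := hK.tendsto_subseq hk
    obtain ⟨M, hM1, hM⟩ := cmc n C h.toPCone (fun m => k (φ m)) (fun _ => o) a o (hKC ha) ho
      hlim tendsto_const_nhds
    obtain ⟨m0, hm0⟩ := exists_nat_ge M
    obtain ⟨m, hm1, hm2⟩ := (hM.and (eventually_ge_atTop m0)).exists
    refine hnk (φ m) (c3 M _ _ _ ?_ ho hm1)
    have h3 : m ≤ φ m := hφ.id_le m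
    have h4 : (m0 : ℝ) ≤ (φ m : ℝ) := by exact_mod_cast hm2.trans h3
    linarith
  obtain ⟨M, hM1, hM⟩ := key
  refine ⟨M, hM1, fun p hp hpH => ?_⟩
  obtain ⟨g, hg, t, ht, htK⟩ := hcov p hp hpH
  refine ⟨g⁻¹, Γ.inv_mem hg, ?_⟩
  have h1 := hM _ htK
  have h2 : Cmp C M (t • act g p) ((1 : ℝ) • o) := by rwa [one_smul]
  rw [c5 M t 1 (act g p) o ht one_pos] at h2
  have h3 := (c4 M (act g p) o g⁻¹ (Γ.inv_mem hg)).2 h2
  rwa [CC.act_inv_act] at h3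

end Pool.Agent.PFS.H95
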