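import Pool.Agent.PFS.StmtsH

set_option autoImplicit false

open Matrix Filter Topology

namespace Pool.Agent.PFS.H95

theorem seg_core {n : ℕ} {C : Set (V n)} {Γ : Subgroup (GL (Fin n) ℝ)} (h : CC C Γ) {p q : V n}
    (hp : p ∈ C) (hpH : p ∈ Hull C Γ) (hq : q ∈ C) (hqH : q ∈ Hull C Γ) {y : V n}
    (hy : y ∈ Seg p q) : y ∈ C ∧ y ∈ Hull C Γ := by
  obtain ⟨a, b, ha, hb, hab, rfl⟩ := hy
  have hul := h.hul
  rcases ha.eq_or_lt with h0 | h0
  · subst h0
    have hb' : 0 < b := by linarith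
    rw [zero_smul, zero_add]
    exact ⟨h.smul q hq b hb', hul.smul q hqH b hb'⟩
  · rcases hb.eq_or_lt with h1 | h1
    · subst h1
      rw [zero_smul, add_zero]
      exact ⟨h.smul p hp a h0, hul.smul p hpH a h0⟩
    · exact ⟨h.add_cl (h.smul p hp a h0) (subset_closure (h.smul q hq b h1)),
        hul.add _ (hul.smul p hpH a h0) _ (hul.smul q hqH b h1)⟩

theorem gen (cmf : CmfStmt) (prp : PrpStmt) (sgc : SgcStmt) : GenStmt := by
  intro n C Γ h o ho hoH M₀ hM₀ hcov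
  obtain ⟨c1, c2, c3, c4, c5, c6, c7, c8⟩ := cmf n C Γ h
  have hul := h.hul
  have hM0 : (0 : ℝ) ≤ M₀ := by linarith
  have hM2 : M₀ ≤ 2 * M₀ ^ 2 := by nlinarith
  have chain : ∀ x y : ↥Γ, ∃ (N : ℕ) (c : ℕ → ↥Γ), c 0 = x ∧ c N = y ∧
      (∀ i ≤ N, ∃ z ∈ Seg (act (x : GL (Fin n) ℝ) o) (act (y : GL (Fin n) ℝ) o),
        Cmp C M₀ (act (c i : GL (Fin n) ℝ) o) z) ∧
      (∀ i < N, Cmp C (2 * M₀ ^ 2) (act (c i : GL (Fin n) ℝ) o)
        (act (c (i + 1) : GL (Fin n) ℝ) o)) := by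
    intro x y
    have hg : ∀ g : ↥Γ, act (g : GL (Fin n) ℝ) o ∈ C := fun g => h.mem g g.2 o ho
    have hgH : ∀ g : ↥Γ, act (g : GL (Fin n) ℝ) o ∈ Hull C Γ := fun g => hul.act o hoH g g.2
    obtain ⟨N, z, hz0, hzN, hzS, hzC⟩ := sgc n C h.toPCone _ (hg x) _ (hg y)
    have hzc : ∀ i ≤ N, z i ∈ C ∧ z i ∈ Hull C Γ := fun i hi =>
      seg_core h (hg x) (hgH x) (hg y) (hgH y) (hzS i hi)
    have hG : ∀ i : ℕ, ∃ g : ↥Γ, i ≤ N → Cmp C M₀ (z i) (act (g : GL (Fin n) ℝ) o) := by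
      intro i
      by_cases hi : i ≤ N
      · obtain ⟨g, hg1, hg2⟩ := hcov (z i) (hzc i hi).1 (hzc i hi).2
        exact ⟨⟨g, hg1⟩, fun _ => hg2⟩
      · exact ⟨1, fun h5 => absurd h5 hi⟩
    choose G hG using hG
    set c : ℕ → ↥Γ := fun i => if i = 0 then x else if i ≤ N + 1 then G (i - 1) else y with hc
    have e0 : c 0 = x := by simp [hc]
    have eN : c (N + 2) = y := by
      simp only [hc]; rw [if_neg (by omega), if_neg (by omega)]
    have eG : ∀ i ≤ N, c (i + 1) = G i := by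
      intro i hi
      simp only [hc]; rw [if_neg (by omega), if_pos (by omega)]; rfl
    have hG' : ∀ i ≤ N, Cmp C M₀ (act (G i : GL (Fin n) ℝ) o) (z i) := fun i hi =>
      c1 M₀ _ _ (hzc i hi).1 (hg (G i)) (hG i hi)
    refine ⟨N + 2, c, e0, eN, ?_, ?_⟩
    · intro i hi
      rcases Nat.eq_zero_or_pos i with h0 | h0
      · subst h0
        rw [e0]
        refine ⟨z 0, hzS 0 (Nat.zero_le _), ?_⟩
        rw [hz0]
        exact c6 M₀ _ hM₀ (hg x)
      · obtain ⟨j, rfl⟩ : ∃ j, i = j + 1 := ⟨i - 1, by omega⟩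
        rcases Nat.lt_or_ge N j with h1 | h1
        · have hj : j = N + 1 := by omega
          subst hj
          have e3 : c (N + 1 + 1) = y := eN
          rw [e3]
          refine ⟨z N, hzS N le_rfl, ?_⟩
          rw [hzN]
          exact c6 M₀ _ hM₀ (hg y)
        · rw [eG j h1]
          exact ⟨z j, hzS j h1, hG' j h1⟩
    · intro i hi
      rcases Nat.eq_zero_or_pos i with h0 | h0
      · subst h0
        rw [e0, eG 0 (Nat.zero_le _)]
        have h5 := hG 0 (Nat.zero_le _)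
        rw [hz0] at h5
        exact c3 M₀ _ _ _ hM2 (hg _) h5
      · obtain ⟨j, rfl⟩ : ∃ j, i = j + 1 := ⟨i - 1, by omega⟩
        rw [eG j (by omega)]
        rcases Nat.lt_or_ge j N with h1 | h1
        · rw [eG (j + 1) (by omega)]
          have h5 := c2 M₀ 2 _ _ _ hM0 (by norm_num) (hg _) (hzc j (by omega)).1
            (hzc (j + 1) (by omega)).1 (hG' j (by omega)) (hzC j h1)
          have h6 := c2 (M₀ * 2) M₀ _ _ _ (by positivity) hM0 (hg _) (hzc (j + 1) (by omega)).1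
            (hg _) h5 (hG (j + 1) (by omega))
          have h7 : M₀ * 2 * M₀ = 2 * M₀ ^ 2 := by ring
          rwa [h7] at h6
        · have hj : j = N := by omega
          subst hj
          have e3 : c (j + 1 + 1) = y := eN
          rw [e3]
          have h5 := hG' j le_rfl
          rw [hzN] at h5
          exact c3 M₀ _ _ _ hM2 (hg _) h5
  refine ⟨?_, chain⟩
  have hfin := prp n C Γ h o ho (2 * M₀ ^ 2)
  have hfin2 : {g : ↥Γ | Cmp C (2 * M₀ ^ 2) (act (g : GL (Fin n) ℝ) o) o}.Finite := by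
    refine Set.Finite.of_finite_image (f := fun g : ↥Γ => (g : GL (Fin n) ℝ)) (hfin.subset ?_)
      Subtype.val_injective.injOn
    rintro _ ⟨g, hg, rfl⟩
    exact ⟨g.2, hg⟩
  refine ⟨hfin2.toFinset, fun g => by simp, ?_⟩
  rw [eq_top_iff]
  intro g _
  obtain ⟨N, c, h0, hN, _, hst⟩ := chain 1 g
  have hmem : ∀ i ≤ N, c i ∈ Subgroup.closure ((hfin2.toFinset : Finset ↥Γ) : Set ↥Γ) := by
    intro i
    induction i with
    | zero =>
      intro _
      rw [h0]
      exact Subgroup.one_mem _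
    | succ i ih =>
      intro hi
      have h1 := ih (by omega)
      have h2 := c1 _ _ _ (h.mem (c i) (c i).2 o ho) (h.mem (c (i + 1)) (c (i + 1)).2 o ho)
        (hst i (by omega))
      have h3 : (c i)⁻¹ * c (i + 1) ∈ Subgroup.closure ((hfin2.toFinset : Finset ↥Γ) : Set ↥Γ) := by
        refine Subgroup.subset_closure ?_
        rw [Set.Finite.coe_toFinset]
        have h4 := c4 (2 * M₀ ^ 2) (act (((c i)⁻¹ * c (i + 1) : ↥Γ) : GL (Fin n) ℝ) o) o
          (c i : GL (Fin n) ℝ) (c i).2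
        refine h4.1 ?_
        rw [← CC.act_mul]
        have h5 : ((c i : GL (Fin n) ℝ)) * (((c i)⁻¹ * c (i + 1) : ↥Γ) : GL (Fin n) ℝ) =
            (c (i + 1) : GL (Fin n) ℝ) := by
          simp
        rw [h5]
        exact h2
      have h6 := Subgroup.mul_mem _ h1 h3
      rwa [mul_inv_cancel_left] at h6
  have := hmem N le_rfl
  rwa [hN] at this

end Pool.Agent.PFS.H95
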