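import Pool.Agent.PFS.StmtsH

set_option autoImplicit false

open Matrix Filter Topology

namespace Pool.Agent.PFS.H95

theorem le_pow {n : ℕ} {C : Set (V n)} (h : PCone C) {p q : V n} (hp : p ∈ C) {M : ℝ} {K : ℕ}
    (hM : M ≤ 2 ^ K) (h1 : M • p - q ∈ C) : (2 : ℝ) ^ K • p - q ∈ closure C := by
  have h2 : ((2 : ℝ) ^ K - M) • p ∈ closure C := h.cl_smul (subset_closure hp) (by linarith)
  have h3 := h.cl_add h2 (subset_closure h1)
  have h4 : ((2 : ℝ) ^ K - M) • p + (M • p - q) = (2 : ℝ) ^ K • p - q := by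
    rw [sub_smul]; abel
  rwa [h4] at h3

theorem sgc : SgcStmt := by
  intro n C h p hp q hq
  obtain ⟨M1, hM1, h1⟩ := h.absorb hp q
  obtain ⟨M2, hM2, h2⟩ := h.absorb hq p
  obtain ⟨K, hK⟩ := pow_unbounded_of_one_lt (max M1 M2) (one_lt_two : (1 : ℝ) < 2)
  have hp' := subset_closure hp
  have hq' := subset_closure hq
  have hKp : (2 : ℝ) ^ K • p - q ∈ closure C :=
    le_pow h hp ((le_max_left _ _).trans hK.le) h1
  have hKq : (2 : ℝ) ^ K • q - p ∈ closure C :=
    le_pow h hq ((le_max_right _ _).trans hK.le) h2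
  have hpos : (0 : ℝ) < 2 ^ K := by positivity
  set c : ℕ → V n := fun i => if i = 0 then p else if i ≤ 2 * K + 1 then
    p + ((2 : ℝ) ^ (i - 1) * ((2 : ℝ) ^ K)⁻¹) • q else q with hc
  refine ⟨2 * K + 2, c, by simp [hc], ?_, ?_, ?_⟩
  · have h3 : ¬ (2 * K + 2 ≤ 2 * K + 1) := by omega
    simp [hc, h3]
  · intro i hi
    simp only [hc]
    split_ifs with h3 h4
    · exact ⟨1, 0, by norm_num, le_refl _, by norm_num, by simp⟩
    · exact ⟨1, (2 : ℝ) ^ (i - 1) * ((2 : ℝ) ^ K)⁻¹, by norm_num, by positivity, by positivity, by simp⟩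
    · exact ⟨0, 1, le_refl _, by norm_num, by norm_num, by simp⟩
  · intro i hi
    rcases Nat.eq_zero_or_pos i with h0 | h0
    · subst h0
      have e0 : c 0 = p := by simp [hc]
      have e1 : c (0 + 1) = p + ((2 : ℝ) ^ K)⁻¹ • q := by simp [hc]
      rw [e0, e1]
      refine ⟨2, by norm_num, ?_, ?_⟩
      · have h5 := h.cl_smul hKp (inv_nonneg.2 hpos.le)
        have h6 : ((2 : ℝ) ^ K)⁻¹ • ((2 : ℝ) ^ K • p - q) = (2 : ℝ) • p - (p + ((2 : ℝ) ^ K)⁻¹ • q) := by
          rw [smul_sub, smul_smul, inv_mul_cancel₀ hpos.ne', one_smul, two_smul]; abel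
        rwa [h6] at h5
      · have h5 := h.cl_smul hq' (t := 2 * ((2 : ℝ) ^ K)⁻¹) (by positivity)
        have h6 : (2 * ((2 : ℝ) ^ K)⁻¹) • q = (2 : ℝ) • (p + ((2 : ℝ) ^ K)⁻¹ • q) - (2 : ℝ) • p := by
          rw [smul_add, smul_smul]; abel
        rwa [h6] at h5
    · rcases Nat.lt_or_ge i (2 * K + 1) with h3 | h3
      · have e0 : c i = p + ((2 : ℝ) ^ (i - 1) * ((2 : ℝ) ^ K)⁻¹) • q := by
          simp only [hc]; rw [if_neg (by omega), if_pos (by omega)]
        have e1 : c (i + 1) = p + (2 * ((2 : ℝ) ^ (i - 1) * ((2 : ℝ) ^ K)⁻¹)) • q := by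
          simp only [hc]; rw [if_neg (by omega), if_pos (by omega)]
          have h7 : i + 1 - 1 = (i - 1) + 1 := by omega
          rw [h7, pow_succ]; congr 2; ring
        rw [e0, e1]
        set s := (2 : ℝ) ^ (i - 1) * ((2 : ℝ) ^ K)⁻¹ with hs
        have hs0 : 0 < s := by positivity
        refine ⟨2, by norm_num, ?_, ?_⟩
        · have h6 : (2 : ℝ) • (p + s • q) - (p + (2 * s) • q) = p := by
            rw [smul_add, smul_smul, two_smul]; abel
          rwa [h6]
        · have h6 : (2 : ℝ) • (p + (2 * s) • q) - (2 : ℝ) • (p + s • q) = (2 * s) • q := by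
            rw [smul_add, smul_add, smul_smul, smul_smul]
            have : (2 * (2 * s)) = 2 * s + 2 * s := by ring
            rw [this, add_smul]; abel
          rw [h6]
          exact h.cl_smul hq' (by positivity)
      · have h4 : i = 2 * K + 1 := by omega
        subst h4
        have e0 : c (2 * K + 1) = p + (2 : ℝ) ^ K • q := by
          simp only [hc]; rw [if_neg (by omega), if_pos (by omega)]
          have h7 : 2 * K + 1 - 1 = K + K := by omega
          rw [h7, pow_add, mul_assoc, mul_inv_cancel₀ hpos.ne', mul_one]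
        have e1 : c (2 * K + 1 + 1) = q := by
          simp only [hc]; rw [if_neg (by omega), if_neg (by omega)]
        rw [e0, e1]
        refine ⟨((2 : ℝ) ^ K)⁻¹, by positivity, ?_, ?_⟩
        · have h6 : ((2 : ℝ) ^ K)⁻¹ • (p + (2 : ℝ) ^ K • q) - q = ((2 : ℝ) ^ K)⁻¹ • p := by
            rw [smul_add, smul_smul, inv_mul_cancel₀ hpos.ne', one_smul]; abel
          rw [h6]
          exact h.cl_smul hp' (by positivity)
        · have h5 := h.cl_smul hKq (inv_nonneg.2 hpos.le)
          have h6 : ((2 : ℝ) ^ K)⁻¹ • ((2 : ℝ) ^ K • q - p) =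
              (2 : ℝ) • q - ((2 : ℝ) ^ K)⁻¹ • (p + (2 : ℝ) ^ K • q) := by
            rw [smul_sub, smul_smul, smul_add, smul_smul, inv_mul_cancel₀ hpos.ne', one_smul, two_smul]; abel
          rwa [h6] at h5

end Pool.Agent.PFS.H95
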